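import Pool.Agent.Lib.MP_431574_lc.Main

/-!
# Segment drawing with obstacles, embedding not fixed, is hard for the existential theory of the
reals

The definitions are in `Pool/Agent/Lib/MP_431574_lc/Defs.lean`: arithmetic terms, quantifier-free
formulas, the existential theory of the reals `ETR`, the class `ER`, `ERHard`, planar straight-line
drawings, crossing notions, instances and their codes, and the decision problem `segDraw C`.
Polynomial-time many-one reducibility and the encodings are those of the given prelude.
The stronger theorem `Pool.Agent.SegDraw.hard_on` in `Main.lean` gives the same for the instances
whose graph is a forest, whose vertices live on open vertical or horizontal segments and whose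
obstacles are vertical.
-/

open Pool.Agent.SegDraw

/-- For every reading `C` of the word crosses (between proper crossing and having a common
point), the segment drawing problem with obstacles, with the embedding not fixed, is hard for the
class of problems that reduce in polynomial time to the existential theory of the reals. -/
theorem Pool.Agent.Results.MP_431574_lc.SegDrawHard.result
    (C : ℝ × ℝ → ℝ × ℝ → ℝ × ℝ → ℝ × ℝ → Prop) (hC : IsCrossingNotion C) :
    ERHard (segDraw C) :=
  segDraw_hard C hC
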